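import Mathlib
import Pool.Agent.Y90.S.Jobs

/-!
# Project S4: irreducible submodules in the case of real multiplication
-/

set_option linter.unusedSectionVars false

namespace Pool.Agent.Y758.S4

open Matrix Module Pool.Agent.W437.HC Pool.Agent.W437.HD Pool.Agent.W548.Odd Pool.Agent.Y90
  Pool.Agent.Y90.S
open Pool.Agent.W437.HP (cK cK_mul cK_one)

noncomputable section

section gen

variable {B : Type*} [Fintype B] [DecidableEq B]

/-- Complete reducibility from a definite form and adjoints. -/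
theorem cred_of_herm {L : Submodule ℂ (Matrix B B ℂ)} {P : Matrix B B ℂ}
    (hpos : ∀ u : B → ℂ, star u ⬝ᵥ (P *ᵥ u) = 0 → u = 0)
    (hadj : ∀ X ∈ L, ∃ Y ∈ L, P * X = Yᴴ * P) : CRed L := by
  intro M hM
  let N : Submodule ℂ (B → ℂ) :=
    { carrier := {v | ∀ u ∈ M, star u ⬝ᵥ (P *ᵥ v) = 0}
      zero_mem' := fun u _ => by rw [mulVec_zero, dotProduct_zero]
      add_mem' := fun {a b} ha hb u hu => by
        rw [mulVec_add, dotProduct_add, ha u hu, hb u hu, add_zero]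
      smul_mem' := fun c a ha u hu => by
        rw [mulVec_smul, dotProduct_smul, ha u hu, smul_zero] }
  have hdis : M ⊓ N = ⊥ := by
    rw [eq_bot_iff]
    rintro v ⟨hv, hv'⟩
    exact hpos v (hv' v hv)
  have hN : Stab L N := by
    intro X hX v hv u hu
    obtain ⟨Y, hY, hXY⟩ := hadj X hX
    rw [mulVec_mulVec, hXY, ← mulVec_mulVec, dotProduct_mulVec, ← star_mulVec]
    exact hv _ (hM Y hY u hu)
  let b := Module.finBasis ℂ M
  let T : (B → ℂ) →ₗ[ℂ] (Fin (finrank ℂ M) → ℂ) :=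
    { toFun := fun v i => star ((b i : M) : B → ℂ) ⬝ᵥ (P *ᵥ v)
      map_add' := fun x y => by
        funext i
        rw [mulVec_add, dotProduct_add]
        rfl
      map_smul' := fun c x => by
        funext i
        rw [mulVec_smul, dotProduct_smul]
        rfl }
  have hker : LinearMap.ker T ≤ N := by
    intro v hv u hu
    have h1 : u = ∑ i, b.repr ⟨u, hu⟩ i • ((b i : M) : B → ℂ) := by
      have h2 := congrArg (fun w : M => (w : B → ℂ)) (b.sum_repr ⟨u, hu⟩)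
      simp only [Submodule.coe_sum, Submodule.coe_smul] at h2
      exact h2.symm
    rw [h1, star_sum, sum_dotProduct]
    refine Finset.sum_eq_zero fun i _ => ?_
    rw [star_smul, smul_dotProduct]
    have h3 : star ((b i : M) : B → ℂ) ⬝ᵥ (P *ᵥ v) = 0 := congrFun (LinearMap.mem_ker.1 hv) i
    rw [h3, smul_zero]
  have hdim : finrank ℂ (B → ℂ) ≤ finrank ℂ M + finrank ℂ N := by
    have h1 := LinearMap.finrank_range_add_finrank_ker T
    have h2 : finrank ℂ (LinearMap.range T) ≤ finrank ℂ M := by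
      refine (Submodule.finrank_le _).trans ?_
      rw [Module.finrank_fintype_fun_eq_card, Fintype.card_fin]
    have h3 := Submodule.finrank_mono hker
    omega
  have hsup : M ⊔ N = ⊤ := by
    apply Submodule.eq_top_of_finrank_eq
    apply le_antisymm (Submodule.finrank_le _)
    have h1 := Submodule.finrank_sup_add_finrank_inf_eq M N
    rw [hdis, finrank_bot, add_zero] at h1
    rw [h1]
    exact hdim
  have hc : IsCompl M N := ⟨disjoint_iff.2 hdis, codisjoint_iff.2 hsup⟩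
  refine ⟨M.projection N hc, fun X hX v => ?_, fun w => Submodule.projection_apply_mem hc w,
    fun w hw => Submodule.projection_apply_of_mem_left hc hw⟩
  set π := M.projection N hc with hπ
  have hz : ∀ w ∈ N, π w = 0 := fun w hw => (Submodule.projection_apply_eq_zero_iff hc).2 hw
  have hm : ∀ w, π w ∈ M := fun w => Submodule.projection_apply_mem hc w
  have hid : ∀ w ∈ M, π w = w := fun w hw => Submodule.projection_apply_of_mem_left hc hw
  have h1 : v - π v ∈ N := by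
    rw [← Submodule.projection_apply_eq_zero_iff hc, ← hπ, map_sub, hid _ (hm v), sub_self]
  have h2 : X *ᵥ v = X *ᵥ (π v) + X *ᵥ (v - π v) := by rw [← mulVec_add, add_sub_cancel]
  have h3 : X *ᵥ π v ∈ M := hM _ hX _ (hm v)
  rw [h2, map_add, hid _ h3, hz _ (hN X hX _ h1), add_zero]

/-- A real matrix with a definite quadratic form defines a definite hermitian form. -/
theorem pos_complex {R : Matrix B B ℝ} (hR : ∀ x : B → ℝ, x ≠ 0 → 0 < x ⬝ᵥ (R *ᵥ x))
    (u : B → ℂ) (hu : star u ⬝ᵥ (R.map (fun x : ℝ => (x : ℂ)) *ᵥ u) = 0) : u = 0 := by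
  have h1 : (star u ⬝ᵥ (R.map (fun x : ℝ => (x : ℂ)) *ᵥ u)).re =
      (fun i => (u i).re) ⬝ᵥ (R *ᵥ fun i => (u i).re) +
        (fun i => (u i).im) ⬝ᵥ (R *ᵥ fun i => (u i).im) := by
    simp only [dotProduct, mulVec, Finset.mul_sum, Complex.re_sum, ← Finset.sum_add_distrib]
    refine Finset.sum_congr rfl fun i _ => Finset.sum_congr rfl fun j _ => ?_
    simp only [Pi.star_apply, Matrix.map_apply, RCLike.star_def, Complex.mul_re, Complex.conj_re,
      Complex.conj_im, Complex.ofReal_re, Complex.ofReal_im, Complex.mul_im]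
    ring
  rw [hu, Complex.zero_re] at h1
  have hnn : ∀ x : B → ℝ, 0 ≤ x ⬝ᵥ (R *ᵥ x) := by
    intro x
    by_cases hx : x = 0
    · rw [hx, zero_dotProduct]
    · exact (hR x hx).le
  have h2 := hnn (fun i => (u i).re)
  have h3 := hnn (fun i => (u i).im)
  have h4 : (fun i => (u i).re) = 0 := by
    by_contra h5
    have := hR _ h5
    linarith
  have h5 : (fun i => (u i).im) = 0 := by
    by_contra h6
    have := hR _ h6
    linarith
  funext i
  exact Complex.ext (congrFun h4 i) (congrFun h5 i)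

/-- Schur's lemma. -/
theorem schur {L : Submodule ℂ (Matrix B B ℂ)} {W : Submodule ℂ (B → ℂ)} (hW : IrS L W)
    {X : Matrix B B ℂ} (hX : ∀ Y ∈ L, Y * X = X * Y) (hs : ∀ v ∈ W, X *ᵥ v ∈ W) :
    ∃ c : ℂ, ∀ v ∈ W, X *ᵥ v = c • v := by
  have hnt : Nontrivial W := Submodule.nontrivial_iff_ne_bot.2 hW.1
  let f : Module.End ℂ W := (mulVecLin X).restrict hs
  obtain ⟨c, hc⟩ := Module.End.exists_eigenvalue f
  obtain ⟨w, hw⟩ := hc.exists_hasEigenvector
  refine ⟨c, ?_⟩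
  let E : Submodule ℂ (B → ℂ) :=
    { carrier := {v | v ∈ W ∧ X *ᵥ v = c • v}
      zero_mem' := ⟨W.zero_mem, by rw [mulVec_zero, smul_zero]⟩
      add_mem' := fun {a b} ha hb => ⟨W.add_mem ha.1 hb.1, by
        rw [mulVec_add, ha.2, hb.2, smul_add]⟩
      smul_mem' := fun t a ha => ⟨W.smul_mem t ha.1, by
        rw [mulVec_smul, ha.2, smul_comm]⟩ }
  have hE : Stab L E := by
    intro Y hY v hv
    refine ⟨hW.2.1 Y hY v hv.1, ?_⟩
    rw [mulVec_mulVec, ← hX Y hY, ← mulVec_mulVec, hv.2, mulVec_smul]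
  rcases hW.2.2 E (fun v hv => hv.1) hE with h | h
  · exfalso
    have h1 : (w : B → ℂ) ∈ E := ⟨w.2, congrArg (fun v : W => (v : B → ℂ)) hw.apply_eq_smul⟩
    rw [h, Submodule.mem_bot] at h1
    exact hw.2 (Subtype.ext h1)
  · intro v hv
    rw [← h] at hv
    exact hv.2

/-- Rational functionals separate complex numbers. -/
theorem eq_zero_of_fun {z : ℂ} (h : ∀ f : ℂ →ₗ[ℚ] ℚ, f z = 0) : z = 0 :=
  (Module.forall_dual_apply_eq_zero_iff ℚ z).1 h

theorem map_mul_qm (f : ℂ →ₗ[ℚ] ℚ) (Y : Matrix B B ℂ) (b : Matrix B B ℚ) :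
    (Y * qm b).map f = Y.map f * b := by
  ext i j
  rw [Matrix.map_apply, mul_apply, mul_apply, map_sum]
  refine Finset.sum_congr rfl fun k _ => ?_
  change f (Y i k * ((b k j : ℚ) : ℂ)) = f (Y i k) * b k j
  rw [mul_comm, ← Rat.smul_def, map_smul, smul_eq_mul, mul_comm]

theorem map_qm_mul (f : ℂ →ₗ[ℚ] ℚ) (Y : Matrix B B ℂ) (b : Matrix B B ℚ) :
    (qm b * Y).map f = b * Y.map f := by
  ext i j
  rw [Matrix.map_apply, mul_apply, mul_apply, map_sum]
  refine Finset.sum_congr rfl fun k _ => ?_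
  change f (((b i k : ℚ) : ℂ) * Y k j) = b i k * f (Y k j)
  rw [← Rat.smul_def, map_smul, smul_eq_mul]

/-- The complex span of a rational space of matrices. -/
def AC (A : Submodule ℚ (Matrix B B ℚ)) : Submodule ℂ (Matrix B B ℂ) :=
  Submodule.span ℂ (Set.image qm A)

theorem qm_mem_AC {A : Submodule ℚ (Matrix B B ℚ)} {a : Matrix B B ℚ} (ha : a ∈ A) :
    qm a ∈ AC A := Submodule.subset_span ⟨a, ha, rfl⟩

/-- Rational descent. -/
theorem mem_AC {A : Submodule ℚ (Matrix B B ℚ)} {X : Matrix B B ℂ}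
    (hX : ∀ f : ℂ →ₗ[ℚ] ℚ, X.map f ∈ A) : X ∈ AC A := by
  classical
  let bas := Basis.ofVectorSpace ℚ ℂ
  let K : Finset (Basis.ofVectorSpaceIndex ℚ ℂ) :=
    Finset.univ.biUnion fun i : B => Finset.univ.biUnion fun j : B => (bas.repr (X i j)).support
  have h1 : X = ∑ k ∈ K, bas k • qm (X.map (bas.coord k)) := by
    ext i j
    rw [Matrix.sum_apply]
    have h2 : X i j = ∑ k ∈ (bas.repr (X i j)).support, (bas.repr (X i j)) k • bas k := by
      conv_lhs => rw [← bas.linearCombination_repr (X i j)]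
      rfl
    rw [h2]
    refine Finset.sum_subset_zero_on_sdiff ?_ ?_ ?_
    · intro k hk
      simp only [K, Finset.mem_biUnion, Finset.mem_univ, true_and]
      exact ⟨i, j, hk⟩
    · intro k hk
      rw [Finset.mem_sdiff, Finsupp.mem_support_iff, not_not] at hk
      change bas k * (((bas.repr (X i j)) k : ℚ) : ℂ) = 0
      rw [hk.2, Rat.cast_zero, mul_zero]
    · intro k _
      change _ = bas k * (((bas.repr (X i j)) k : ℚ) : ℂ)
      rw [Rat.smul_def, mul_comm]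
  rw [h1]
  exact Submodule.sum_mem _ fun k _ => Submodule.smul_mem _ _ (qm_mem_AC (hX _))

/-- Rational matrices that are linearly independent over the rationals are linearly independent over
the complex numbers. -/
theorem linIndep_qm {n : ℕ} {a : Fin n → Matrix B B ℚ} (ha : LinearIndependent ℚ a) :
    LinearIndependent ℂ (fun k => qm (a k)) := by
  rw [Fintype.linearIndependent_iff] at ha ⊢
  intro c hc k
  refine eq_zero_of_fun fun f => ha (fun k => f (c k)) ?_ k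
  ext i j
  have h1 := congrArg f (congrFun (congrFun hc i) j)
  rw [Matrix.sum_apply, map_sum] at h1
  rw [Matrix.sum_apply, Matrix.zero_apply]
  rw [Matrix.zero_apply, map_zero] at h1
  rw [← h1]
  refine Finset.sum_congr rfl fun k _ => ?_
  change f (c k) * a k i j = f (c k * ((a k i j : ℚ) : ℂ))
  rw [mul_comm (c k), ← Rat.smul_def, map_smul, smul_eq_mul, mul_comm]

theorem finrank_AC (A : Submodule ℚ (Matrix B B ℚ)) : finrank ℂ (AC A) = finrank ℚ A := by
  let b := Module.finBasis ℚ A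
  have h1 : LinearIndependent ℚ (fun k => ((b k : A) : Matrix B B ℚ)) :=
    b.linearIndependent.map' A.subtype (Submodule.ker_subtype A)
  have h2 := linIndep_qm h1
  have h3 : AC A = Submodule.span ℂ (Set.range fun k => qm ((b k : A) : Matrix B B ℚ)) := by
    apply le_antisymm
    · refine Submodule.span_le.2 ?_
      rintro _ ⟨a, ha, rfl⟩
      have h4 : a = ∑ k, b.repr ⟨a, ha⟩ k • ((b k : A) : Matrix B B ℚ) := by
        have h5 := congrArg (fun w : A => (w : Matrix B B ℚ)) (b.sum_repr ⟨a, ha⟩)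
        simp only [Submodule.coe_sum, Submodule.coe_smul] at h5
        exact h5.symm
      have h6 : qm a = ∑ k, ((b.repr ⟨a, ha⟩ k : ℚ) : ℂ) • qm ((b k : A) : Matrix B B ℚ) := by
        ext i j
        rw [Matrix.sum_apply]
        have h7 := congrArg (fun q : ℚ => (q : ℂ)) (congrFun (congrFun h4 i) j)
        rw [Matrix.sum_apply] at h7
        simp only [Rat.cast_sum, Matrix.smul_apply, smul_eq_mul, Rat.cast_mul] at h7
        exact h7
      rw [h6]
      exact Submodule.sum_mem _ fun k _ => Submodule.smul_mem _ _ (Submodule.subset_span ⟨k, rfl⟩)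
    · refine Submodule.span_le.2 ?_
      rintro _ ⟨k, rfl⟩
      exact qm_mem_AC (b k).2
  rw [h3, finrank_span_eq_card h2, Fintype.card_fin]

end gen

section rm

variable {g : ℕ} {Z : Matrix (Fin g) (Fin g) ℂ} {M : Matrix (Fin g ⊕ Fin g) (Fin g ⊕ Fin g) ℚ}
  {A : Submodule ℚ (Matrix (Fin g ⊕ Fin g) (Fin g ⊕ Fin g) ℚ)}

/-- The Lie algebra together with the endomorphisms. -/
def LM (Z : Matrix (Fin g) (Fin g) ℂ)
    (A : Submodule ℚ (Matrix (Fin g ⊕ Fin g) (Fin g ⊕ Fin g) ℚ)) :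
    Submodule ℂ (Matrix (Fin g ⊕ Fin g) (Fin g ⊕ Fin g) ℂ) := LZ Z ⊔ AC A

theorem LZ_le_LM : LZ Z ≤ LM Z A := le_sup_left

theorem qm_mem_LM {a : Matrix (Fin g ⊕ Fin g) (Fin g ⊕ Fin g) ℚ} (ha : a ∈ A) :
    qm a ∈ LM Z A := (le_sup_right : AC A ≤ LM Z A) (qm_mem_AC ha)

theorem LM_le {L : Submodule ℂ (Matrix (Fin g ⊕ Fin g) (Fin g ⊕ Fin g) ℂ)} (h1 : LZ Z ≤ L)
    (h2 : ∀ a ∈ A, qm a ∈ L) : LM Z A ≤ L := by
  refine sup_le h1 (Submodule.span_le.2 ?_)
  rintro _ ⟨a, ha, rfl⟩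
  exact h2 a ha

theorem skew_LZ (r : RMA Z M A) {X : Matrix (Fin g ⊕ Fin g) (Fin g ⊕ Fin g) ℂ} (hX : X ∈ LZ Z) :
    Xᵀ * qm M + qm M * X = 0 := by
  let L : Submodule ℂ (Matrix (Fin g ⊕ Fin g) (Fin g ⊕ Fin g) ℂ) :=
    { carrier := {X | Xᵀ * qm M + qm M * X = 0}
      zero_mem' := by
        change (0 : Matrix (Fin g ⊕ Fin g) (Fin g ⊕ Fin g) ℂ)ᵀ * _ + _ * 0 = 0
        rw [transpose_zero, zero_mul, mul_zero, add_zero]
      add_mem' := by
        intro a b ha hb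
        change (a + b)ᵀ * _ + _ * (a + b) = 0
        rw [transpose_add, add_mul, mul_add, add_add_add_comm, ha, hb, add_zero]
      smul_mem' := by
        intro c a ha
        change (c • a)ᵀ * _ + _ * (c • a) = 0
        rw [transpose_smul, smul_mul_assoc, mul_smul_comm, ← smul_add, ha, smul_zero] }
  have h1 : LZ Z ≤ L := by
    refine LZ_le (fun σ => ?_) (fun A hA C hC => ?_)
    · change (DS Z σ)ᵀ * qm M + qm M * DS Z σ = 0
      have h2 := congrArg (fun Y => Y.map (σ : ℂ →+* ℂ)) r.inv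
      rw [Matrix.map_add _ (map_add (σ : ℂ →+* ℂ)), Matrix.map_mul, Matrix.map_mul, qm_aut,
        Matrix.map_zero _ (map_zero (σ : ℂ →+* ℂ))] at h2
      exact h2
    · change (A * C - C * A)ᵀ * _ + _ * (A * C - C * A) = 0
      have h1 : Aᵀ * qm M = -(qm M * A) := eq_neg_of_add_eq_zero_left hA
      have h2 : Cᵀ * qm M = -(qm M * C) := eq_neg_of_add_eq_zero_left hC
      rw [transpose_sub, transpose_mul, transpose_mul, sub_mul, mul_assoc, mul_assoc, h1, h2,
        mul_neg, mul_neg, ← mul_assoc, ← mul_assoc, h1, h2]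
      noncomm_ring
  exact h1 hX

theorem comm_LZ (r : RMA Z M A) {X : Matrix (Fin g ⊕ Fin g) (Fin g ⊕ Fin g) ℂ} (hX : X ∈ LZ Z)
    {a : Matrix (Fin g ⊕ Fin g) (Fin g ⊕ Fin g) ℚ} (ha : a ∈ A) : X * qm a = qm a * X := by
  let L : Submodule ℂ (Matrix (Fin g ⊕ Fin g) (Fin g ⊕ Fin g) ℂ) :=
    { carrier := {X | X * qm a = qm a * X}
      zero_mem' := by
        change (0 : Matrix (Fin g ⊕ Fin g) (Fin g ⊕ Fin g) ℂ) * _ = _ * 0
        rw [zero_mul, mul_zero]
      add_mem' := by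
        intro x y hx hy
        change (x + y) * _ = _ * (x + y)
        rw [add_mul, mul_add, hx, hy]
      smul_mem' := by
        intro c x hx
        change (c • x) * _ = _ * (c • x)
        rw [smul_mul_assoc, mul_smul_comm, hx] }
  have h1 : LZ Z ≤ L := by
    refine LZ_le (fun σ => ?_) (fun x hx y hy => ?_)
    · change DS Z σ * qm a = qm a * DS Z σ
      have h2 := congrArg (fun Y => Y.map (σ : ℂ →+* ℂ)) (r.comm a ha)
      rw [Matrix.map_mul, Matrix.map_mul, qm_aut] at h2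
      exact h2.symm
    · change (x * y - y * x) * qm a = qm a * (x * y - y * x)
      have hx' : x * qm a = qm a * x := hx
      have hy' : y * qm a = qm a * y := hy
      rw [sub_mul, mul_sub, mul_assoc, mul_assoc, hx', hy', ← mul_assoc, ← mul_assoc, hx', hy',
        mul_assoc, mul_assoc]
  exact h1 hX

theorem comm_A (r : RMA Z M A) {a b : Matrix (Fin g ⊕ Fin g) (Fin g ⊕ Fin g) ℚ} (ha : a ∈ A)
    (hb : b ∈ A) : a * b = b * a := (r.cent b (r.comm b hb)).1 hb a ha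

theorem comm_LM (r : RMA Z M A) {X : Matrix (Fin g ⊕ Fin g) (Fin g ⊕ Fin g) ℂ} (hX : X ∈ LM Z A)
    {a : Matrix (Fin g ⊕ Fin g) (Fin g ⊕ Fin g) ℚ} (ha : a ∈ A) : X * qm a = qm a * X := by
  let L : Submodule ℂ (Matrix (Fin g ⊕ Fin g) (Fin g ⊕ Fin g) ℂ) :=
    { carrier := {X | X * qm a = qm a * X}
      zero_mem' := by
        change (0 : Matrix (Fin g ⊕ Fin g) (Fin g ⊕ Fin g) ℂ) * _ = _ * 0
        rw [zero_mul, mul_zero]
      add_mem' := by
        intro x y hx hy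
        change (x + y) * _ = _ * (x + y)
        rw [add_mul, mul_add, hx, hy]
      smul_mem' := by
        intro c x hx
        change (c • x) * _ = _ * (c • x)
        rw [smul_mul_assoc, mul_smul_comm, hx] }
  have h1 : LM Z A ≤ L := by
    refine LM_le (fun X hX => comm_LZ r hX ha) (fun b hb => ?_)
    change qm b * qm a = qm a * qm b
    rw [← qm_mul, ← qm_mul, comm_A r ha hb]
  exact h1 hX

/-- The matrix of the hermitian form. -/
def PH (Z : Matrix (Fin g) (Fin g) ℂ) (M : Matrix (Fin g ⊕ Fin g) (Fin g ⊕ Fin g) ℚ) :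
    Matrix (Fin g ⊕ Fin g) (Fin g ⊕ Fin g) ℂ :=
  ((JR Z)ᵀ * cK ℝ M).map (fun x : ℝ => (x : ℂ))

theorem PH_eq (Z : Matrix (Fin g) (Fin g) ℂ) (M : Matrix (Fin g ⊕ Fin g) (Fin g ⊕ Fin g) ℚ) :
    PH Z M = Complex.I • ((DZ Z)ᵀ * qm M) := by
  have h1 : PH Z M = ((JR Z)ᵀ).map (fun x : ℝ => (x : ℂ)) * qm M := by
    have h2 : ((JR Z)ᵀ * cK ℝ M).map (Complex.ofRealHom : ℝ →+* ℂ) =
        ((JR Z)ᵀ).map (Complex.ofRealHom : ℝ →+* ℂ) *
          (cK ℝ M).map (Complex.ofRealHom : ℝ →+* ℂ) := Matrix.map_mul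
    have h3 : (cK ℝ M).map (Complex.ofRealHom : ℝ →+* ℂ) = qm M := by
      ext i j
      change (((M i j : ℚ) : ℝ) : ℂ) = ((M i j : ℚ) : ℂ)
      simp
    rw [h3] at h2
    exact h2
  have h4 : (DZ Z)ᵀ = (-Complex.I) • ((JR Z)ᵀ).map (fun x : ℝ => (x : ℂ)) := by
    ext i j
    rfl
  rw [h1, h4, smul_mul_assoc, smul_smul, show Complex.I * -Complex.I = 1 by simp, one_smul]

theorem PH_pos (r : RMA Z M A) (u : Fin g ⊕ Fin g → ℂ) (hu : star u ⬝ᵥ (PH Z M *ᵥ u) = 0) :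
    u = 0 := by
  refine pos_complex (R := (JR Z)ᵀ * cK ℝ M) (fun x hx => ?_) u hu
  have h1 := r.pos x hx
  rw [← mulVec_mulVec, dotProduct_mulVec, vecMul_transpose]
  exact h1

theorem PH_adj (h : PM Z) (r : RMA Z M A) : ∀ X ∈ LM Z A, ∃ Y ∈ LM Z A, PH Z M * X =
    Yᴴ * PH Z M := by
  let L : Submodule ℂ (Matrix (Fin g ⊕ Fin g) (Fin g ⊕ Fin g) ℂ) :=
    { carrier := {X | ∃ Y ∈ LM Z A, PH Z M * X = Yᴴ * PH Z M}
      zero_mem' := ⟨0, Submodule.zero_mem _, by simp⟩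
      add_mem' := by
        rintro x y ⟨x', hx', hx⟩ ⟨y', hy', hy⟩
        exact ⟨x' + y', Submodule.add_mem _ hx' hy', by
          rw [mul_add, hx, hy, conjTranspose_add, add_mul]⟩
      smul_mem' := by
        rintro c x ⟨x', hx', hx⟩
        exact ⟨star c • x', Submodule.smul_mem _ _ hx', by
          rw [mul_smul_comm, hx, conjTranspose_smul, star_star, smul_mul_assoc]⟩ }
  have hL : LM Z A ≤ L := by
    refine LM_le (fun X hX => ?_) (fun a ha => ?_)
    · have hc : X.map cc ∈ LZ Z := gal_LZ cc X hX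
      have hDc : DZ Z * X.map cc * DZ Z ∈ LZ Z := LA_invol hc DZ_mem (DZ_sq h.det)
      refine ⟨-(DZ Z * X.map cc * DZ Z), LZ_le_LM (Submodule.neg_mem _ hDc), ?_⟩
      have hDH : (DZ Z)ᴴ = -(DZ Z)ᵀ := by
        have h1 : (DZ Z)ᴴ = ((DZ Z).map cc)ᵀ := rfl
        rw [h1, Pool.Agent.Y90.DZ_conj, transpose_neg]
      have hXH : (X.map cc)ᴴ = Xᵀ := by
        ext i j
        change starRingEnd ℂ (starRingEnd ℂ (X j i)) = X j i
        exact Complex.conj_conj _
      have hDD : (DZ Z)ᵀ * (DZ Z)ᵀ = 1 := by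
        rw [← transpose_mul, DZ_sq h.det, transpose_one]
      have hsk : Xᵀ * qm M = -(qm M * X) := eq_neg_of_add_eq_zero_left (skew_LZ r hX)
      rw [PH_eq, conjTranspose_neg, conjTranspose_mul, conjTranspose_mul, hDH, hXH]
      rw [smul_mul_assoc, mul_smul_comm]
      congr 1
      calc (DZ Z)ᵀ * qm M * X = -((DZ Z)ᵀ * (Xᵀ * qm M)) := by rw [hsk]; noncomm_ring
        _ = -((DZ Z)ᵀ * Xᵀ * ((DZ Z)ᵀ * (DZ Z)ᵀ) * qm M) := by rw [hDD]; noncomm_ring
        _ = _ := by noncomm_ring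
    · refine ⟨qm a, qm_mem_LM ha, ?_⟩
      have haH : (qm a)ᴴ = (qm a)ᵀ := by
        ext i j
        change starRingEnd ℂ ((a j i : ℚ) : ℂ) = ((a j i : ℚ) : ℂ)
        simp
      have hself : (qm a)ᵀ * qm M = qm M * qm a := by
        have h1 := congrArg qm (r.self a ha)
        rw [qm_mul, qm_mul] at h1
        exact h1
      have hcomm : (qm a)ᵀ * (DZ Z)ᵀ = (DZ Z)ᵀ * (qm a)ᵀ := by
        rw [← transpose_mul, ← transpose_mul, r.comm a ha]
      rw [PH_eq, haH, smul_mul_assoc, mul_smul_comm]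
      congr 1
      rw [mul_assoc, ← hself, ← mul_assoc, ← mul_assoc, hcomm]
  exact hL

theorem cred_LM (h : PM Z) (r : RMA Z M A) : CRed (LM Z A) :=
  cred_of_herm (PH_pos r) (PH_adj h r)

/-- Matrices commuting with the Lie algebra and the endomorphisms are in the span of the
endomorphisms. -/
theorem mem_AC_of_comm (r : RMA Z M A) {X : Matrix (Fin g ⊕ Fin g) (Fin g ⊕ Fin g) ℂ}
    (hX : ∀ Y ∈ LM Z A, X * Y = Y * X) : X ∈ AC A := by
  refine mem_AC fun f => ?_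
  have h1 : ∀ b : Matrix (Fin g ⊕ Fin g) (Fin g ⊕ Fin g) ℚ, qm b ∈ LM Z A →
      X.map f * b = b * X.map f := by
    intro b hb
    have h2 := congrArg (fun Y => Y.map f) (hX _ hb)
    rwa [map_mul_qm, map_qm_mul] at h2
  have h3 : ∀ f' : ℂ →ₗ[ℚ] ℚ, qm ((DZ Z).map f') ∈ LM Z A := by
    intro f'
    refine LZ_le_LM ?_
    have h4 := map_mem (Z := Z) ((Algebra.linearMap ℚ ℂ).comp f')
    have h5 : (DZ Z).map ((Algebra.linearMap ℚ ℂ).comp f') = qm ((DZ Z).map f') := by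
      ext i j
      rfl
    rwa [h5] at h4
  have h6 : qm (X.map f) * DZ Z = DZ Z * qm (X.map f) := by
    rw [← sub_eq_zero]
    ext i j
    refine eq_zero_of_fun fun f' => ?_
    have h7 := h1 _ (h3 f')
    rw [← map_qm_mul, ← map_mul_qm] at h7
    have h8 := congrFun (congrFun h7 i) j
    rw [Matrix.map_apply, Matrix.map_apply] at h8
    rw [Matrix.sub_apply, map_sub, h8, sub_self]
  exact (r.cent _ h6).2 fun a ha => (h1 a (qm_mem_LM ha)).symm

/-- An irreducible submodule for the Lie algebra and the endomorphisms is the whole eigenspace of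
its character. -/
theorem eigen_le (h : PM Z) (r : RMA Z M A) {W : Submodule ℂ (Fin g ⊕ Fin g → ℂ)}
    (hW : IrS (LM Z A) W) {χ : Matrix (Fin g ⊕ Fin g) (Fin g ⊕ Fin g) ℚ → ℂ}
    (hχ : ∀ a ∈ A, ∀ v ∈ W, qm a *ᵥ v = χ a • v) {v : Fin g ⊕ Fin g → ℂ}
    (hv : ∀ a ∈ A, qm a *ᵥ v = χ a • v) : v ∈ W := by
  obtain ⟨π, h1, h2, h3⟩ := cred_LM h r W hW.2.1
  have h4 : ∀ w, LinearMap.toMatrix' π *ᵥ w = π w := fun w => by
    rw [← toLin'_apply, toLin'_toMatrix']
  have h5 : LinearMap.toMatrix' π ∈ AC A := by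
    refine mem_AC_of_comm r fun Y hY => ?_
    apply Matrix.toLin'.injective
    refine LinearMap.ext fun w => ?_
    rw [toLin'_apply, toLin'_apply, ← mulVec_mulVec, ← mulVec_mulVec, h4, h4, h1 Y hY]
  let L : Submodule ℂ (Matrix (Fin g ⊕ Fin g) (Fin g ⊕ Fin g) ℂ) :=
    { carrier := {X | ∃ c : ℂ, ∀ w : Fin g ⊕ Fin g → ℂ, (∀ a ∈ A, qm a *ᵥ w = χ a • w) →
        X *ᵥ w = c • w}
      zero_mem' := ⟨0, fun w _ => by rw [zero_mulVec, zero_smul]⟩
      add_mem' := by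
        rintro x y ⟨c, hc⟩ ⟨d, hd⟩
        exact ⟨c + d, fun w hw => by rw [add_mulVec, hc w hw, hd w hw, add_smul]⟩
      smul_mem' := by
        rintro t x ⟨c, hc⟩
        exact ⟨t * c, fun w hw => by rw [smul_mulVec, hc w hw, smul_smul]⟩ }
  have h6 : AC A ≤ L := by
    refine Submodule.span_le.2 ?_
    rintro _ ⟨a, ha, rfl⟩
    exact ⟨χ a, fun w hw => hw a ha⟩
  obtain ⟨c, hc⟩ := h6 h5
  obtain ⟨w, hw, hw0⟩ := Submodule.exists_mem_ne_zero_of_ne_bot hW.1
  have h7 := hc w (fun a ha => hχ a ha w hw)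
  rw [h4, h3 w hw] at h7
  have h8 : c = 1 := by
    have h9 : (c - 1) • w = 0 := by rw [sub_smul, ← h7, one_smul, sub_self]
    exact sub_eq_zero.1 ((smul_eq_zero.1 h9).resolve_right hw0)
  have h9 := hc v hv
  rw [h4, h8, one_smul] at h9
  rw [← h9]
  exact h2 v

theorem exists_char (r : RMA Z M A) {W : Submodule ℂ (Fin g ⊕ Fin g → ℂ)}
    (hW : IrS (LM Z A) W) : ∃ χ : Matrix (Fin g ⊕ Fin g) (Fin g ⊕ Fin g) ℚ → ℂ,
      ∀ a ∈ A, ∀ v ∈ W, qm a *ᵥ v = χ a • v := by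
  classical
  have h1 : ∀ a : Matrix (Fin g ⊕ Fin g) (Fin g ⊕ Fin g) ℚ, ∃ c : ℂ, a ∈ A →
      ∀ v ∈ W, qm a *ᵥ v = c • v := by
    intro a
    by_cases ha : a ∈ A
    · obtain ⟨c, hc⟩ := schur hW (X := qm a) (fun Y hY => comm_LM r hY ha)
        (fun v hv => hW.2.1 _ (qm_mem_LM ha) v hv)
      exact ⟨c, fun _ => hc⟩
    · exact ⟨0, fun h => absurd h ha⟩
  choose χ hχ using h1
  exact ⟨χ, fun a ha => hχ a ha⟩

/-- Irreducible submodules for the Lie algebra and the endomorphisms are irreducible for the Lie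
algebra. -/
theorem irS_LZ (r : RMA Z M A) {W : Submodule ℂ (Fin g ⊕ Fin g → ℂ)}
    (hW : IrS (LM Z A) W) : IrS (LZ Z) W := by
  obtain ⟨χ, hχ⟩ := exists_char r hW
  refine ⟨hW.1, fun X hX => hW.2.1 X (LZ_le_LM hX), fun Y hY hs => hW.2.2 Y hY ?_⟩
  let L : Submodule ℂ (Matrix (Fin g ⊕ Fin g) (Fin g ⊕ Fin g) ℂ) :=
    { carrier := {X | ∀ v ∈ Y, X *ᵥ v ∈ Y}
      zero_mem' := fun v _ => by rw [zero_mulVec]; exact Y.zero_mem
      add_mem' := fun {a b} ha hb v hv => by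
        rw [add_mulVec]
        exact Y.add_mem (ha v hv) (hb v hv)
      smul_mem' := fun c a ha v hv => by
        rw [smul_mulVec]
        exact Y.smul_mem _ (ha v hv) }
  have h1 : LM Z A ≤ L := by
    refine LM_le (fun X hX v hv => hs X hX v hv) (fun a ha v hv => ?_)
    rw [hχ a ha v (hY hv)]
    exact Y.smul_mem _ hv
  exact fun X hX => h1 hX

/-- Orthogonality of different irreducible submodules. -/
theorem orth (h : PM Z) (r : RMA Z M A) {W W' : Submodule ℂ (Fin g ⊕ Fin g → ℂ)}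
    (hW : IrS (LM Z A) W) (hW' : IrS (LM Z A) W') (hne : W ≠ W') {u v : Fin g ⊕ Fin g → ℂ}
    (hu : u ∈ W) (hv : v ∈ W') : u ⬝ᵥ (qm M *ᵥ v) = 0 := by
  obtain ⟨χ, hχ⟩ := exists_char r hW
  obtain ⟨χ', hχ'⟩ := exists_char r hW'
  obtain ⟨a, ha, hac⟩ : ∃ a ∈ A, χ a ≠ χ' a := by
    by_contra hcon
    push Not at hcon
    have h1 : W' ≤ W := fun w hw => eigen_le h r hW hχ fun a ha => by
      rw [hcon a ha]
      exact hχ' a ha w hw
    rcases hW.2.2 W' h1 hW'.2.1 with h2 | h2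
    · exact hW'.1 h2
    · exact hne h2.symm
  have hself : (qm a)ᵀ * qm M = qm M * qm a := by
    have h1 := congrArg qm (r.self a ha)
    rw [qm_mul, qm_mul] at h1
    exact h1
  have h1 : (qm a *ᵥ u) ⬝ᵥ (qm M *ᵥ v) = u ⬝ᵥ (qm M *ᵥ (qm a *ᵥ v)) := by
    rw [mulVec_mulVec, ← hself, ← mulVec_mulVec, dotProduct_mulVec u, vecMul_transpose]
  rw [hχ a ha u hu, hχ' a ha v hv, mulVec_smul, smul_dotProduct, dotProduct_smul, smul_eq_mul,
    smul_eq_mul] at h1
  have h2 : (χ a - χ' a) * (u ⬝ᵥ (qm M *ᵥ v)) = 0 := by rw [sub_mul, h1, sub_self]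
  exact (mul_eq_zero.1 h2).resolve_left (sub_ne_zero.2 hac)

/-- The polarization is nondegenerate. -/
theorem nondeg_M (r : RMA Z M A) {u : Fin g ⊕ Fin g → ℂ}
    (hu : ∀ v, u ⬝ᵥ (qm M *ᵥ v) = 0) : u = 0 := by
  have h1 : ∀ v, u ⬝ᵥ (PH Z M *ᵥ v) = 0 := by
    intro v
    have h2 : (DZ Z)ᵀ * qm M = -(qm M * DZ Z) := eq_neg_of_add_eq_zero_left r.inv
    rw [PH_eq, h2, smul_mulVec, neg_mulVec, ← mulVec_mulVec, dotProduct_smul, dotProduct_neg, hu,
      neg_zero, smul_zero]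
  have h3 : star (star u) ⬝ᵥ (PH Z M *ᵥ star u) = 0 := by
    rw [star_star]
    exact h1 _
  have h4 := PH_pos r (star u) h3
  rw [← star_star u, h4, star_zero]

theorem nondeg_W (h : PM Z) (r : RMA Z M A) {W : Submodule ℂ (Fin g ⊕ Fin g → ℂ)}
    (hW : IrS (LM Z A) W) : ∀ u ∈ W, (∀ v ∈ W, u ⬝ᵥ (qm M *ᵥ v) = 0) → u = 0 := by
  intro u hu huv
  refine nondeg_M r fun v => ?_
  let N : Submodule ℂ (Fin g ⊕ Fin g → ℂ) :=
    { carrier := {v | u ⬝ᵥ (qm M *ᵥ v) = 0}
      zero_mem' := by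
        change u ⬝ᵥ (qm M *ᵥ 0) = 0
        rw [mulVec_zero, dotProduct_zero]
      add_mem' := fun {a b} ha hb => by
        change u ⬝ᵥ (qm M *ᵥ (a + b)) = 0
        rw [mulVec_add, dotProduct_add, ha, hb, add_zero]
      smul_mem' := fun c a ha => by
        change u ⬝ᵥ (qm M *ᵥ (c • a)) = 0
        rw [mulVec_smul, dotProduct_smul, ha, smul_zero] }
  have h1 : (⊤ : Submodule ℂ (Fin g ⊕ Fin g → ℂ)) ≤ N := by
    rw [← (cred_LM h r).span]
    refine sSup_le fun W' hW' w hw => ?_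
    by_cases hne : W = W'
    · exact huv w (by rw [hne]; exact hw)
    · exact orth h r hW hW' hne hu hw
  exact h1 Submodule.mem_top

/-- The projectors onto the irreducible submodules separate points. -/
theorem exists_proj (h : PM Z) (r : RMA Z M A) :
    ∃ π : Submodule ℂ (Fin g ⊕ Fin g → ℂ) → ((Fin g ⊕ Fin g → ℂ) →ₗ[ℂ] (Fin g ⊕ Fin g → ℂ)),
      (∀ W, IrS (LM Z A) W → (∀ X ∈ LM Z A, ∀ w, π W (X *ᵥ w) = X *ᵥ π W w) ∧
        (∀ w, π W w ∈ W) ∧ ∀ w ∈ W, π W w = w) ∧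
      ∀ v, (∀ W, IrS (LM Z A) W → π W v = 0) → v = 0 := by
  classical
  have h1 : ∀ W : Submodule ℂ (Fin g ⊕ Fin g → ℂ),
      ∃ π : (Fin g ⊕ Fin g → ℂ) →ₗ[ℂ] (Fin g ⊕ Fin g → ℂ), IrS (LM Z A) W →
        (∀ X ∈ LM Z A, ∀ w, π (X *ᵥ w) = X *ᵥ π w) ∧ (∀ w, π w ∈ W) ∧ ∀ w ∈ W, π w = w := by
    intro W
    by_cases hW : IrS (LM Z A) W
    · obtain ⟨π, hπ⟩ := cred_LM h r W hW.2.1
      exact ⟨π, fun _ => hπ⟩
    · exact ⟨0, fun h => absurd h hW⟩
  choose π hπ using h1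
  refine ⟨π, hπ, fun v hv => ?_⟩
  by_contra hne
  let N : Submodule ℂ (Fin g ⊕ Fin g → ℂ) :=
    { carrier := {v | ∀ W, IrS (LM Z A) W → π W v = 0}
      zero_mem' := fun W _ => map_zero _
      add_mem' := fun {a b} ha hb W hW => by rw [map_add, ha W hW, hb W hW, add_zero]
      smul_mem' := fun c a ha W hW => by rw [map_smul, ha W hW, smul_zero] }
  have hN : Stab (LM Z A) N := by
    intro X hX w hw W hW
    rw [(hπ W hW).1 X hX, hw W hW, mulVec_zero]
  have hN0 : N ≠ ⊥ := by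
    intro h0
    have h2 : v ∈ N := hv
    rw [h0, Submodule.mem_bot] at h2
    exact hne h2
  obtain ⟨W, hWN, hW⟩ := exists_irS _ N rfl hN0 hN
  obtain ⟨w, hw, hw0⟩ := Submodule.exists_mem_ne_zero_of_ne_bot hW.1
  apply hw0
  rw [← (hπ W hW).2.2 w hw]
  exact hWN hw W hW

/-- Irreducible submodules in the case of real multiplication. -/
theorem jrm : JRM := by
  intro g Z h M A r U hU
  obtain ⟨π, hπ, hsep⟩ := exists_proj h r
  obtain ⟨u, hu, hu0⟩ := Submodule.exists_mem_ne_zero_of_ne_bot hU.1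
  obtain ⟨W, hW, hWu⟩ : ∃ W, IrS (LM Z A) W ∧ π W u ≠ 0 := by
    by_contra hcon
    push Not at hcon
    exact hu0 (hsep u hcon)
  have h1 : ∀ X ∈ LZ Z, ∀ v, π W (X *ᵥ v) = X *ᵥ π W v := fun X hX v =>
    (hπ W hW).1 X (LZ_le_LM hX) v
  have h2 := hU.inj (fun X hX v _ => h1 X hX v) ⟨u, hu, hWu⟩
  have h3 := hU.map_eq (irS_LZ r hW) (fun X hX v _ => h1 X hX v) ⟨u, hu, hWu⟩
    (fun v _ => (hπ W hW).2.1 v)
  refine ⟨π W, h1, h2, ?_⟩
  rw [h3]
  exact nondeg_W h r hW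

/-- Projectors onto different irreducible submodules. -/
theorem proj_zero (h : PM Z) (r : RMA Z M A) {W W' : Submodule ℂ (Fin g ⊕ Fin g → ℂ)}
    (hW : IrS (LM Z A) W) (hW' : IrS (LM Z A) W') (hne : W ≠ W')
    {π : (Fin g ⊕ Fin g → ℂ) →ₗ[ℂ] (Fin g ⊕ Fin g → ℂ)}
    (h1 : ∀ X ∈ LM Z A, ∀ w, π (X *ᵥ w) = X *ᵥ π w) (h2 : ∀ w, π w ∈ W)
    {v : Fin g ⊕ Fin g → ℂ} (hv : v ∈ W') : π v = 0 := by
  obtain ⟨χ, hχ⟩ := exists_char r hW
  obtain ⟨χ', hχ'⟩ := exists_char r hW'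
  obtain ⟨a, ha, hac⟩ : ∃ a ∈ A, χ a ≠ χ' a := by
    by_contra hcon
    push Not at hcon
    have h1 : W' ≤ W := fun w hw => eigen_le h r hW hχ fun a ha => by
      rw [hcon a ha]
      exact hχ' a ha w hw
    rcases hW.2.2 W' h1 hW'.2.1 with h2 | h2
    · exact hW'.1 h2
    · exact hne h2.symm
  have h3 := h1 _ (qm_mem_LM ha) v
  rw [hχ' a ha v hv, hχ a ha _ (h2 v), map_smul] at h3
  have h4 : (χ a - χ' a) • π v = 0 := by rw [sub_smul, h3, sub_self]
  exact (smul_eq_zero.1 h4).resolve_left (sub_ne_zero.2 hac)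

/-- The dimension of the irreducible submodules in the case of real multiplication. -/
theorem jrmdim : JRMdim := by
  classical
  intro g Z h hs M A r U hU
  obtain ⟨π, hπ, hsep⟩ := exists_proj h r
  let I := {W : Submodule ℂ (Fin g ⊕ Fin g → ℂ) // IrS (LM Z A) W}
  let P : I → ((Fin g ⊕ Fin g → ℂ) →ₗ[ℂ] (Fin g ⊕ Fin g → ℂ)) := fun W => π W.1
  have hP1 : ∀ (W : I) (X) (_ : X ∈ LM Z A) (w), P W (X *ᵥ w) = X *ᵥ P W w := fun W =>
    (hπ W.1 W.2).1
  have hP2 : ∀ (W : I) (w), P W w ∈ W.1 := fun W => (hπ W.1 W.2).2.1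
  have hP3 : ∀ (W : I) (w) (_ : w ∈ W.1), P W w = w := fun W => (hπ W.1 W.2).2.2
  have hP0 : ∀ (W W' : I) (_ : W ≠ W') (w) (_ : w ∈ W'.1), P W w = 0 := fun W W' hne w hw =>
    proj_zero h r W.2 W'.2 (fun h1 => hne (Subtype.ext h1)) (hP1 W) (hP2 W) hw
  have hlin : LinearIndependent ℂ P := by
    rw [linearIndependent_iff']
    intro s c hc W hW
    obtain ⟨w, hw, hw0⟩ := Submodule.exists_mem_ne_zero_of_ne_bot W.2.1
    have h1 := congrArg (fun f : (Fin g ⊕ Fin g → ℂ) →ₗ[ℂ] (Fin g ⊕ Fin g → ℂ) => f w) hc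
    simp only [LinearMap.sum_apply, LinearMap.smul_apply, LinearMap.zero_apply] at h1
    rw [Finset.sum_eq_single_of_mem W hW (fun W' _ hne => by
      rw [hP0 W' W hne w hw, smul_zero]), hP3 W w hw] at h1
    exact (smul_eq_zero.1 h1).resolve_right hw0
  have hfin : Finite I := hlin.finite
  have : Fintype I := Fintype.ofFinite I
  have hsum : ∀ v, ∑ W, P W v = v := by
    intro v
    rw [← sub_eq_zero]
    refine hsep _ fun W hW => ?_
    rw [map_sub, map_sum, sub_eq_zero]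
    have h1 : ∀ W' : I, W' ≠ ⟨W, hW⟩ → π W (P W' v) = 0 := fun W' hne =>
      hP0 ⟨W, hW⟩ W' (Ne.symm hne) _ (hP2 W' v)
    rw [Finset.sum_eq_single (⟨W, hW⟩ : I) (fun W' _ hne => h1 W' hne) (fun h2 =>
      absurd (Finset.mem_univ _) h2)]
    exact hP3 ⟨W, hW⟩ _ (hP2 ⟨W, hW⟩ v)
  have htr : (finrank ℂ (Fin g ⊕ Fin g → ℂ) : ℂ) = ∑ W : I, (finrank ℂ W.1 : ℂ) := by
    rw [← LinearMap.trace_one]
    have h1 : (1 : Module.End ℂ (Fin g ⊕ Fin g → ℂ)) = ∑ W, P W := by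
      refine LinearMap.ext fun v => ?_
      rw [LinearMap.sum_apply, hsum]
      rfl
    rw [h1, map_sum]
    refine Finset.sum_congr rfl fun W _ => ?_
    exact LinearMap.IsProj.trace ⟨hP2 W, hP3 W⟩
  have hdim : ∀ W : I, finrank ℂ W.1 = finrank ℂ U := fun W =>
    finrank_irS h hs (irS_LZ r W.2) hU
  have hAC : AC A = Submodule.span ℂ (Set.range fun W : I => LinearMap.toMatrix' (P W)) := by
    apply le_antisymm
    · refine Submodule.span_le.2 ?_
      rintro _ ⟨a, ha, rfl⟩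
      have h1 : ∀ W : I, ∃ c : ℂ, ∀ v ∈ W.1, qm a *ᵥ v = c • v := fun W => by
        obtain ⟨χ, hχ⟩ := exists_char r W.2
        exact ⟨χ a, hχ a ha⟩
      choose c hc using h1
      have h2 : qm a = ∑ W, c W • LinearMap.toMatrix' (P W) := by
        apply Matrix.toLin'.injective
        refine LinearMap.ext fun v => ?_
        rw [map_sum, LinearMap.sum_apply, toLin'_apply]
        have h3 : ∀ W : I, (Matrix.toLin' (c W • LinearMap.toMatrix' (P W))) v = c W • P W v := by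
          intro W
          rw [map_smul, toLin'_toMatrix', LinearMap.smul_apply]
        rw [Finset.sum_congr rfl fun W _ => h3 W]
        conv_lhs => rw [← hsum v]
        rw [mulVec_sum]
        exact Finset.sum_congr rfl fun W _ => hc W _ (hP2 W v)
      rw [h2]
      exact Submodule.sum_mem _ fun W _ => Submodule.smul_mem _ _ (Submodule.subset_span ⟨W, rfl⟩)
    · refine Submodule.span_le.2 ?_
      rintro _ ⟨W, rfl⟩
      refine mem_AC_of_comm r fun Y hY => ?_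
      apply Matrix.toLin'.injective
      refine LinearMap.ext fun w => ?_
      have h4 : ∀ w, LinearMap.toMatrix' (P W) *ᵥ w = P W w := fun w => by
        rw [← toLin'_apply, toLin'_toMatrix']
      rw [toLin'_apply, toLin'_apply, ← mulVec_mulVec, ← mulVec_mulVec, h4, h4, hP1 W Y hY]
  have hcard : finrank ℚ A = Fintype.card I := by
    rw [← finrank_AC, hAC]
    refine finrank_span_eq_card (b := fun W : I => LinearMap.toMatrix' (P W)) ?_
    exact hlin.map' (LinearMap.toMatrix' : ((Fin g ⊕ Fin g → ℂ) →ₗ[ℂ] (Fin g ⊕ Fin g → ℂ)) ≃ₗ[ℂ]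
      Matrix (Fin g ⊕ Fin g) (Fin g ⊕ Fin g) ℂ).toLinearMap (LinearEquiv.ker _)
  rw [Finset.sum_congr rfl fun W _ => by rw [hdim W], Finset.sum_const, Finset.card_univ,
    ← hcard, finrank_V, nsmul_eq_mul] at htr
  have h1 : (2 * g : ℕ) = finrank ℚ A * finrank ℂ U := by exact_mod_cast htr
  rw [h1, mul_comm]

end rm

end

end Pool.Agent.Y758.S4
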